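import Pool.Agent.H74.Bc1

namespace Pool.Agent.Results.MP_888150_co.Bound
open SimpleGraph Finset

variable {V : Type}

/-- `f` is a dominating 2-broadcast of `G`. -/
def IsDom2 (G : SimpleGraph V) (f : V → ℕ) : Prop :=
  (∀ v, f v ≤ G.diam) ∧
    ∀ u, ∃ v₁ v₂, v₁ ≠ v₂ ∧ 0 < f v₁ ∧ 0 < f v₂ ∧ G.dist u v₁ ≤ f v₁ ∧ G.dist u v₂ ≤ f v₂

variable {G : SimpleGraph V}

theorem uniq (hT : G.IsTree) {u w x y : V} (hx : G.Adj x w) (hy : G.Adj y w)
    (h1 : G.dist u w = G.dist u x + 1) (h2 : G.dist u w = G.dist u y + 1) : x = y := by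
  obtain ⟨p, -, hp⟩ := hT.connected.exists_path_of_dist u x
  obtain ⟨q, -, hq⟩ := hT.connected.exists_path_of_dist u y
  have e1 : (p.concat hx).IsPath := Walk.isPath_of_length_eq_dist _ (by simp [hp, h1])
  have e2 : (q.concat hy).IsPath := Walk.isPath_of_length_eq_dist _ (by simp [hq, h2])
  have e := Subtype.mk.inj ((hT.isAcyclic.subsingleton_path u w).elim ⟨_, e1⟩ ⟨_, e2⟩)
  have := congrArg Walk.penultimate e
  simpa using this

theorem conv (hT : G.IsTree) (w : V) (s : ℕ → V) (m : ℕ) (ha : ∀ i < m, G.Adj (s i) (s (i + 1)))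
    (hn : ∀ i, i + 2 ≤ m → s i ≠ s (i + 2)) (c : ℕ)
    (h : G.dist w (s (c + 1)) = G.dist w (s c) + 1) : ∀ k, c + k + 1 ≤ m →
      G.dist w (s (c + k + 1)) = G.dist w (s (c + k)) + 1 ∧
      G.dist w (s (c + k + 1)) = G.dist w (s c) + k + 1 := by
  intro k
  induction k with
  | zero => intro _; exact ⟨h, h⟩
  | succ k ih =>
    intro hk
    obtain ⟨h1, h2⟩ := ih (by omega)
    rw [← Nat.add_assoc c k 1]
    rcases hT.dist_eq_dist_add_one_of_adj w (ha (c + k + 1) (by omega)) with h3 | h3
    · exact absurd (uniq hT (ha (c + k) (by omega)) (ha (c + k + 1) (by omega)).symm h1 h3)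
        (hn (c + k) (by omega))
    · exact ⟨h3, by omega⟩

theorem geo (hT : G.IsTree) (x y : V) : ∃ s : ℕ → V, s 0 = x ∧ s (G.dist x y) = y ∧
    (∀ i < G.dist x y, G.Adj (s i) (s (i + 1))) ∧
    (∀ i, i + 2 ≤ G.dist x y → s i ≠ s (i + 2)) ∧
    ∀ i ≤ G.dist x y, G.dist (s i) x = i ∧ G.dist (s i) y + i = G.dist x y := by
  obtain ⟨p, -, hp⟩ := hT.connected.exists_path_of_dist x y
  have ha : ∀ i < G.dist x y, G.Adj (p.getVert i) (p.getVert (i + 1)) :=
    fun i hi => p.adj_getVert_succ (hp ▸ hi)
  have h0 : p.getVert 0 = x := p.getVert_zero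
  have h1 : p.getVert (G.dist x y) = y := hp ▸ p.getVert_length
  generalize p.getVert = s at *
  have hd : ∀ i k, i + k ≤ G.dist x y → G.dist (s i) (s (i + k)) ≤ k := by
    intro i k
    induction k with
    | zero => simp
    | succ k ih =>
      intro h
      have := ih (by omega)
      have := hT.dist_eq_dist_add_one_of_adj (s i) (ha (i + k) (by omega))
      rw [← Nat.add_assoc]
      omega
  have key : ∀ i ≤ G.dist x y, G.dist (s i) x = i ∧ G.dist (s i) y + i = G.dist x y := by
    intro i hi
    have e1 := hd 0 i (by omega)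
    have e2 := hd i (G.dist x y - i) (by omega)
    rw [h0, Nat.zero_add] at e1
    rw [show i + (G.dist x y - i) = G.dist x y by omega, h1] at e2
    have e3 : G.dist x y ≤ G.dist x (s i) + G.dist (s i) y := hT.connected.dist_triangle
    rw [dist_comm (u := s i) (v := x)]
    omega
  refine ⟨s, h0, h1, ha, fun i hi e => ?_, key⟩
  have := (key i (by omega)).1
  have := (key (i + 2) hi).1
  rw [← e] at this
  omega

theorem desc (hT : G.IsTree) {x y u : V} (h : G.dist x y < G.dist u x + G.dist u y)
    (h1 : G.dist u y ≤ G.dist x y) :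
    ∃ u', G.dist u' x + 1 = G.dist u x ∧ G.dist u' y + 1 = G.dist u y := by
  obtain ⟨t, t0, t1, t2, t3, t4⟩ := geo hT u x
  refine ⟨t 1, (t4 1 (by omega)).2, ?_⟩
  rcases hT.dist_eq_dist_add_one_of_adj y (t2 0 (by omega)) with h3 | h3
  · rw [t0, dist_comm, dist_comm (u := y)] at h3
    exact h3.symm
  · have := (conv hT y t _ t2 t3 0 h3 (G.dist u x - 1) (by omega)).2
    rw [show 0 + (G.dist u x - 1) + 1 = G.dist u x by omega, t1, t0, dist_comm,
      dist_comm (u := y)] at this
    omega

theorem result (V : Type) [Fintype V] (G : SimpleGraph V) (hT : G.IsTree)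
    (hn : 2 ≤ Fintype.card V) :
    ∃ f : V → ℕ, IsDom2 G f ∧ 3 * ∑ v, f v ≤ 2 * Fintype.card V + 4 := by
  classical
  haveI : Nontrivial V := Fintype.one_lt_card_iff_nontrivial.1 hn
  obtain ⟨x, y, hxy⟩ := G.exists_dist_eq_diam
  have hd0 : G.diam ≠ 0 := connected_iff_diam_ne_zero.1 hT.connected
  have hle : ∀ u v, G.dist u v ≤ G.diam := fun u v =>
    dist_le_diam (ediam_ne_top_of_diam_ne_zero hd0)
  obtain ⟨s, s0, s1, s2, s3, s4⟩ := geo hT x y
  have tri : ∀ u, G.dist x y ≤ G.dist u x + G.dist u y := fun u => by
    rw [dist_comm (u := u) (v := x)]; exact hT.connected.dist_triangle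
  have ds : ∀ u, G.dist x y < G.dist u x + G.dist u y →
      ∃ u', G.dist u' x + 1 = G.dist u x ∧ G.dist u' y + 1 = G.dist u y :=
    fun u h => desc hT h (hxy ▸ hle u y)
  have near : ∀ u c, c ≤ G.dist x y → G.dist u (s c) + c = G.dist u x ∨
      G.dist u (s c) + G.dist x y = G.dist u y + c := by
    intro u c hc
    by_cases h : ∃ i < c, G.dist u (s (i + 1)) = G.dist u (s i) + 1
    · obtain ⟨i, hi, h⟩ := h
      have e1 := (conv hT u s _ s2 s3 i h (c - i - 1) (by omega)).2
      have e2 := (conv hT u s _ s2 s3 i h (G.dist x y - i - 1) (by omega)).2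
      rw [show i + (c - i - 1) + 1 = c by omega] at e1
      rw [show i + (G.dist x y - i - 1) + 1 = G.dist x y by omega, s1] at e2
      omega
    · push Not at h
      left
      have : ∀ i ≤ c, G.dist u (s i) + i = G.dist u x := by
        intro i
        induction i with
        | zero => intro _; rw [s0]; rfl
        | succ i ih =>
          intro hi
          have := ih (by omega)
          have := h i (by omega)
          have := hT.dist_eq_dist_add_one_of_adj u (s2 i (by omega))
          omega
      exact this c le_rfl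
  rw [hxy] at s4 tri ds near
  have hα : ∀ u, G.dist u x ≤ G.diam := fun u => hle u x
  have hβ : ∀ u, G.dist u y ≤ G.diam := fun u => hle u y
  generalize hα' : (fun u => G.dist u x) = α
  generalize hβ' : (fun u => G.dist u y) = β
  have eα : ∀ u, G.dist u x = α u := fun u => congrFun hα' u
  have eβ : ∀ u, G.dist u y = β u := fun u => congrFun hβ' u
  simp only [eα, eβ] at s4 tri ds near hα hβ
  generalize hd : G.diam = d at *
  have ext : ∀ z (u : V), d - β u < z → z ≤ α u →
      ∃ u', d - β u' < z ∧ z ≤ α u' ∧ (z = d - β u' + 1 ∨ z = α u') := by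
    intro z u
    induction h : α u using Nat.strong_induction_on generalizing u with
    | _ k ih =>
      intro h1 h2
      by_cases c : z = d - β u + 1 ∨ z = α u
      · exact ⟨u, h1, by omega, c⟩
      · obtain ⟨u', e1, e2⟩ := ds u (by have := hβ u; omega)
        exact ih (α u') (by omega) u' rfl (by have := hβ u; omega) (by omega)
  obtain ⟨F, F1, F2, F3⟩ := Pool.Agent.H74.Bc.cover (fun z => ∀ u, ¬ (d - β u < z ∧ z ≤ α u))
    (fun z => (univ.filter (fun u => α u < z)).card) (d + 1) (by omega)
    (fun u h => by omega) (fun u h => by have := hα u; omega) (by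
      intro p q hpq hq hp' hq' hz
      let O := univ.filter (fun u => d < α u + β u ∧ p ≤ α u ∧ α u < q)
      have c1 : (Ioo p q).card ≤ O.card + O.card := by
        refine le_trans (Finset.card_le_card (t := O.image (fun u => d - β u + 1) ∪ O.image α)
          fun z hz' => ?_) (le_trans (Finset.card_union_le _ _)
            (Nat.add_le_add Finset.card_image_le Finset.card_image_le))
        rw [Finset.mem_Ioo] at hz'
        have := hz z hz'.1 hz'.2
        push Not at this
        obtain ⟨u, h1, h2⟩ := this
        obtain ⟨u', h3, h4, h5⟩ := ext z u h1 h2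
        have h6 := hq' u'
        have hO : u' ∈ O := by
          simp only [O, Finset.mem_filter, Finset.mem_univ, true_and]
          have := hβ u'
          omega
        rw [Finset.mem_union, Finset.mem_image, Finset.mem_image]
        rcases h5 with h5 | h5
        · exact Or.inl ⟨u', hO, h5.symm⟩
        · exact Or.inr ⟨u', hO, h5.symm⟩
      have c2 : ((Ico p q).image s).card = q - p := by
        rw [Finset.card_image_of_injOn, Nat.card_Ico]
        intro i hi j hj e
        rw [Finset.mem_coe, Finset.mem_Ico] at hi hj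
        have := (s4 i (by omega)).1
        have := (s4 j (by omega)).1
        rw [← e] at this
        omega
      have c3 : (univ.filter (fun u => α u < p) ∪ (Ico p q).image s ∪ O).card ≤
          (univ.filter (fun u => α u < q)).card := by
        refine Finset.card_le_card fun u hu => ?_
        simp only [O, Finset.mem_union, Finset.mem_filter, Finset.mem_univ, true_and,
          Finset.mem_image, Finset.mem_Ico] at hu ⊢
        rcases hu with (hu | ⟨i, hi, rfl⟩) | hu
        · omega
        · have := (s4 i (by omega)).1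
          omega
        · omega
      rw [Finset.card_union_of_disjoint, Finset.card_union_of_disjoint, c2] at c3
      · rw [Nat.card_Ioo] at c1
        omega
      · rw [Finset.disjoint_left]
        intro u h1 h2
        simp only [Finset.mem_filter, Finset.mem_univ, true_and, Finset.mem_image,
          Finset.mem_Ico] at h1 h2
        obtain ⟨i, hi, rfl⟩ := h2
        have := (s4 i (by omega)).1
        omega
      · rw [Finset.disjoint_left]
        intro u h1 h2
        simp only [O, Finset.mem_union, Finset.mem_filter, Finset.mem_univ, true_and,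
          Finset.mem_image, Finset.mem_Ico] at h1 h2
        rcases h1 with h1 | ⟨i, hi, rfl⟩
        · omega
        · have := s4 i (by omega)
          omega)
  have fs : ∀ c, c < d + 1 → (if s c = s (α (s c)) then F (α (s c)) else 0) = F c := by
    intro c hc
    rw [(s4 c (by omega)).1, if_pos rfl]
  refine ⟨fun u => if u = s (α u) then F (α u) else 0, ⟨fun u => ?_, fun u => ?_⟩, ?_⟩
  · have := F2 (α u) (by have := hα u; omega)
    beta_reduce
    split_ifs <;> omega
  · have := hα u
    have := hβ u
    have := tri u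
    obtain ⟨c₁, c₂, h1, h2, h3, h4⟩ := F3 (d - β u) (α u) (by omega) (by omega)
      (fun z z1 z2 h => h u ⟨z1, z2⟩)
    refine ⟨s c₁, s c₂, fun e => h1 ?_, ?_⟩
    · have := (s4 c₁ (by omega)).1
      have := (s4 c₂ (by omega)).1
      rw [← e] at this
      omega
    · beta_reduce
      rw [fs c₁ h2, fs c₂ h3]
      have := near u c₁ (by omega)
      have := near u c₂ (by omega)
      omega
  · have e1 : (univ.filter (fun u => α u < d + 1)).card ≤ Fintype.card V := Finset.card_le_univ _
    have e2 : ∑ u, (if u = s (α u) then F (α u) else 0) ≤ ∑ p ∈ range (d + 1), F p := by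
      rw [← Finset.sum_filter, ← Finset.sum_image (f := F) (g := α)]
      · refine Finset.sum_le_sum_of_subset fun p hp => ?_
        obtain ⟨u, -, rfl⟩ := Finset.mem_image.1 hp
        have := hα u
        exact Finset.mem_range.2 (by omega)
      · intro u hu v hv e
        rw [(Finset.mem_filter.1 hu).2, (Finset.mem_filter.1 hv).2, e]
    beta_reduce at F1 ⊢
    omega

end Pool.Agent.Results.MP_888150_co.Bound
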